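import Pool.Agent.Q192.UCR.Main

/-! MP_ca77af_co, Q1: yes, every tree satisfies `Ω_uc(T) ≤ γ_r(T)`. -/

set_option autoImplicit false

open Q192.UCR

namespace Pool.Agent.Results.MP_ca77af_co.UpColorLeRoman

/-- Every finite tree satisfies `Ω_uc(T) ≤ γ_r(T)`, and every tree with at least two vertices
satisfies `Ω_uc(T) ≤ γ_r(T) - 1`. (The last clause records that the infimum defining `Ω_uc` is
attained.) -/
theorem result (V : Type) [Fintype V] (G : SimpleGraph V) (hG : G.IsTree) :
    upColorWeight G ≤ romanNumber G ∧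
    (2 ≤ Fintype.card V → upColorWeight G < romanNumber G) ∧
    ∃ (c : V → ℕ) (D : Finset V), IsColoring G c ∧ IsUpColorDominating G c D ∧
      ∑ d ∈ D, c d = upColorWeight G :=
  ⟨(main hG).1, (main hG).2, attained G⟩

end Pool.Agent.Results.MP_ca77af_co.UpColorLeRoman
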